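import Pool.Agent.Q92.CS.Mat

set_option autoImplicit false

/-!
# Unital C*-algebras have no intermediate classes of completable graphs

For a nonzero unital C*-algebra `A` either every graph in `G(A)` is a disjoint union of complete
graphs, or `G(A)` is the class of all chordal graphs.

Proof: a graph of `G(A)` which is not a disjoint union of complete graphs has an induced path on
three vertices; completing a suitable partial matrix on it gives the factorization `x = w s`,
`‖w‖ ≤ 1`, of elements with `x* x ≤ s* s`. From this one gets the weak polar decomposition of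
columns over `A` and a separation lemma (if `y r = 0` there is `q` with `q r = 0`, `y q = y`), and
with these the transfer lemma: if two families of columns have the same Gram matrix then for every
column `y` on one side there is a column `z` on the other side with the same inner products with the
family and `⟨z, z⟩ ≤ ⟨y, y⟩`. Chordal graphs are then completed one simplicial vertex at a time.
-/

namespace Pool.Agent.Results.MP_4d599e_an.UnitalDichotomy

variable {A : Type*} [CStarAlgebra A] [PartialOrder A] [StarOrderedRing A]

/-- The principal submatrix of `M` on the set `K` of vertices. -/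
def principal {n : ℕ} (M : CStarMatrix (Fin n) (Fin n) A) (K : Finset (Fin n)) :
    CStarMatrix K K A :=
  CStarMatrix.ofMatrix fun i j => M i j

/-- `M ∈ M_+(Γ)`: the principal submatrices of `M` on the cliques of `Γ` are positive. -/
def PartiallyPositive {n : ℕ} (Γ : SimpleGraph (Fin n)) (M : CStarMatrix (Fin n) (Fin n) A) :
    Prop :=
  ∀ K : Finset (Fin n), Γ.IsClique K → 0 ≤ principal M K

/-- `Γ ∈ G(A)`: every matrix in `M_+(Γ)` has a positive completion. -/
def InG (A : Type*) [CStarAlgebra A] [PartialOrder A] [StarOrderedRing A] {n : ℕ}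
    (Γ : SimpleGraph (Fin n)) : Prop :=
  ∀ M : CStarMatrix (Fin n) (Fin n) A, PartiallyPositive Γ M →
    ∃ Y : CStarMatrix (Fin n) (Fin n) A, 0 ≤ Y ∧ ∀ i j, (i = j ∨ Γ.Adj i j) → Y i j = M i j

/-- Every cycle on `p ≥ 4` distinct vertices has a chord. -/
def Chordal {n : ℕ} (Γ : SimpleGraph (Fin n)) : Prop :=
  ∀ p : ℕ, 4 ≤ p → ∀ v : Fin p → Fin n, Function.Injective v →
    (∀ i j, (SimpleGraph.cycleGraph p).Adj i j → Γ.Adj (v i) (v j)) →
    ∃ i j, ¬ (SimpleGraph.cycleGraph p).Adj i j ∧ Γ.Adj (v i) (v j)

/-- The connected components of `Γ` are complete. -/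
def DisjointUnionOfComplete {n : ℕ} (Γ : SimpleGraph (Fin n)) : Prop :=
  ∀ a b, Γ.Reachable a b → a ≠ b → Γ.Adj a b

lemma chordal_iff {n : ℕ} (Γ : SimpleGraph (Fin n)) :
    Chordal Γ ↔ H255R3.STC.IsChordal Γ := by
  constructor
  · intro h p hp
    by_contra hne
    rw [not_isEmpty_iff] at hne
    obtain ⟨e⟩ := hne
    obtain ⟨i, j, h1, h2⟩ := h p hp e e.injective (fun i j hij => (e.map_adj_iff).2 hij)
    exact h1 ((e.map_adj_iff).1 h2)
  · intro h p hp v hv hadj
    by_contra hc
    push Not at hc
    refine (h p hp).false ⟨⟨v, hv⟩, ?_⟩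
    intro i j
    constructor
    · intro hij
      by_contra h2
      exact hc i j h2 hij
    · intro hij
      exact hadj i j hij

lemma cluster_iff {n : ℕ} (Γ : SimpleGraph (Fin n)) :
    Q92.CS.IsCluster Γ ↔ DisjointUnionOfComplete Γ := by
  constructor
  · intro h a b hab hne
    obtain ⟨w⟩ := hab
    induction w with
    | nil => exact absurd rfl hne
    | @cons u v w huv p ih =>
      by_cases hvw : v = w
      · exact hvw ▸ huv
      · exact h u v w huv (ih hvw) hne
  · intro h a b c hab hbc hac
    exact h a c (hab.reachable.trans hbc.reachable) hac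

/-- **Theorem.** Let `A` be a nonzero unital C*-algebra. Either every graph in `G(A)` is a disjoint
union of complete graphs, or `G(A)` consists of exactly the chordal graphs. -/
theorem result (A : Type*) [CStarAlgebra A] [PartialOrder A] [StarOrderedRing A] [Nontrivial A] :
    (∀ (n : ℕ) (Γ : SimpleGraph (Fin n)), InG A Γ → DisjointUnionOfComplete Γ) ∨
      ∀ (n : ℕ) (Γ : SimpleGraph (Fin n)), InG A Γ ↔ Chordal Γ := by
  by_cases h : ∀ (n : ℕ) (Γ : SimpleGraph (Fin n)), InG A Γ → DisjointUnionOfComplete Γ
  · exact Or.inl h
  · right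
    push Not at h
    obtain ⟨n, Γ, h1, h2⟩ := h
    intro m Δ
    rw [chordal_iff]
    exact Q92.CS.dichotomy (Γ := Γ) h1 (fun hc => h2 ((cluster_iff Γ).1 hc)) Δ

end Pool.Agent.Results.MP_4d599e_an.UnitalDichotomy
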